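import Mathlib
import Pool.Agent.H15.Bal

set_option autoImplicit false

namespace Pool.Agent.Results.MP_34945e_gt.Prod

open Set

/-- A ballean. -/
structure IsBallean {X : Type*} (𝓔 : Set (Set (X × X))) : Prop where
  diag : ∀ E ∈ 𝓔, ∀ x, (x, x) ∈ E
  comp : ∀ E ∈ 𝓔, ∀ F ∈ 𝓔, ∃ D ∈ 𝓔, ∀ x y z, (x, y) ∈ E → (z, y) ∈ F → (x, z) ∈ D
  conn : ∀ x y, ∃ E ∈ 𝓔, (x, y) ∈ E

/-- Bounded sets: subsets of balls. -/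
def Bdd {X : Type*} (𝓔 : Set (Set (X × X))) (B : Set X) : Prop :=
  ∃ E ∈ 𝓔, ∃ x, ∀ y ∈ B, (x, y) ∈ E

/-- Boundedly oscillating functions. -/
def Osc {X : Type*} (𝓔 : Set (Set (X × X))) (f : X → ℝ) : Prop :=
  ∃ C > 0, ∀ E ∈ 𝓔, ∃ B, Bdd 𝓔 B ∧ ∀ x ∉ B, ∀ y z, (x, y) ∈ E → (x, z) ∈ E → |f y - f z| ≤ C

/-- Every such function is bounded off a bounded set. -/
def OscBounded {X : Type*} (𝓔 : Set (Set (X × X))) : Prop :=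
  ∀ f : X → ℝ, Osc 𝓔 f → ∃ B C, Bdd 𝓔 B ∧ ∀ x ∉ B, |f x| ≤ C

/-- The entourages of the product ballean. -/
def prodE {X Y : Type*} (𝓔 : Set (Set (X × X))) (𝓕 : Set (Set (Y × Y))) :
    Set (Set ((X × Y) × (X × Y))) :=
  {D | ∃ E ∈ 𝓔, ∃ F ∈ 𝓕, D = {p | (p.1.1, p.2.1) ∈ E ∧ (p.1.2, p.2.2) ∈ F}}

variable {X Y : Type*} {𝓔 : Set (Set (X × X))} {𝓕 : Set (Set (Y × Y))} {f : X × Y → ℝ}

lemma comp (h : IsBallean 𝓔) {E F : Set (X × X)} (hE : E ∈ 𝓔) (hF : F ∈ 𝓔) :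
    ∃ D ∈ 𝓔, ∀ x y z, (x, y) ∈ E → (y, z) ∈ F → (x, z) ∈ D :=
  let ⟨D, hD, k⟩ := h.comp F hF F hF
  let ⟨G, hG, l⟩ := h.comp E hE D hD
  ⟨G, hG, fun x y z a b => l x y z a (k z z y (h.diag F hF z) b)⟩

def id' (h : IsBallean 𝓔) : H15.Bal.Id X where
  sm := Bdd 𝓔
  mono k := fun ⟨E, hE, x, hx⟩ => ⟨E, hE, x, fun y hy => hx y (k hy)⟩
  un := fun ⟨E, hE, x, hx⟩ ⟨F, hF, z, hz⟩ => let ⟨G, hG, k⟩ := h.conn x z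
    let ⟨D, hD, l⟩ := comp h hG hF
    let ⟨H, hH, m⟩ := comp h hE hD
    ⟨H, hH, x, fun y hy => hy.elim (fun a => m x y y (hx y a) (h.diag D hD y))
      fun a => m x x y (h.diag E hE x) (l x z y k (hz y a))⟩

lemma bswap {B : Set (X × Y)} (h : Bdd (prodE 𝓔 𝓕) B) : Bdd (prodE 𝓕 𝓔) (Prod.swap ⁻¹' B) := by
  obtain ⟨_, ⟨E, hE, F, hF, rfl⟩, a, ha⟩ := h
  exact ⟨_, ⟨F, hF, E, hE, rfl⟩, a.swap, fun y hy => (ha _ hy).symm⟩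

lemma bfst {B : Set (X × Y)} (h : Bdd (prodE 𝓔 𝓕) B) : Bdd 𝓔 (Prod.fst '' B) := by
  obtain ⟨_, ⟨E, hE, F, hF, rfl⟩, a, ha⟩ := h
  exact ⟨E, hE, a.1, forall_mem_image.2 fun y hy => (ha y hy).1⟩

lemma flip (hf : Osc (prodE 𝓔 𝓕) f) : Osc (prodE 𝓕 𝓔) fun p => f p.swap := by
  obtain ⟨C, c, hf⟩ := hf
  refine ⟨C, c, ?_⟩
  rintro _ ⟨F, hF, E, hE, rfl⟩
  obtain ⟨_, hB, h⟩ := hf _ ⟨E, hE, F, hF, rfl⟩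
  exact ⟨_, bswap hB, fun x hx _ _ hy hz => h x.swap hx _ _ hy.symm hz.symm⟩

lemma ne (b : OscBounded 𝓔) : ∃ E, E ∈ 𝓔 := by
  by_contra! n
  obtain ⟨_, _, ⟨E, h, _⟩, _⟩ := b 0 ⟨1, one_pos, fun E h => (n E h).elim⟩
  exact n E h

lemma lip (hF : IsBallean 𝓕) (bF : OscBounded 𝓕) (hf : Osc (prodE 𝓔 𝓕) f) (h : X → ℝ)
    (k : ∀ x x' c, (∀ y, |f (x, y) - f (x', y)| ≤ c) → 0 ≤ c → |h x - h x'| ≤ c) : Osc 𝓔 h :=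
  let ⟨C, c, hf⟩ := hf
  let ⟨F, m⟩ := ne bF
  ⟨C, c, fun E hE => let ⟨_, hB, hC⟩ := hf _ ⟨E, hE, F, m, rfl⟩
    ⟨_, bfst hB, fun x hx _ _ hu hv => k _ _ _ (fun y => hC (x, y) (fun m => hx ⟨_, m, rfl⟩)
      (_, y) (_, y) ⟨hu, hF.diag F m y⟩ ⟨hv, hF.diag F m y⟩) c.le⟩⟩

lemma strip (hE : IsBallean 𝓔) (hF : IsBallean 𝓕) (bE : OscBounded 𝓔) (bF : OscBounded 𝓕)
    (hf : Osc (prodE 𝓔 𝓕) f) (T : Set Y) (hT : Bdd 𝓕 T) :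
    ∃ S C, Bdd 𝓔 S ∧ ∀ x ∉ S, ∀ y ∈ T, |f (x, y)| ≤ C := by
  obtain ⟨F, h, b, hb⟩ := hT
  obtain ⟨S, C, hS, hC⟩ := bE (fun x => f (x, b)) (lip hF bF hf _ fun _ _ _ k _ => k b)
  obtain ⟨D, -, hf⟩ := hf
  obtain ⟨E, m⟩ := ne bE
  obtain ⟨B, hB, hD⟩ := hf _ ⟨E, m, F, h, rfl⟩
  refine ⟨_, D + C, (id' hE).un hS (bfst hB), fun x hx y hy => ?_⟩
  linarith [hC x fun m => hx (.inl m), abs_sub_abs_le_abs_sub (f (x, y)) (f (x, b)),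
    hD (x, b) (fun m => hx (.inr ⟨_, m, rfl⟩)) (x, y) (x, b) ⟨hE.diag E m x, hb y hy⟩
      ⟨hE.diag E m x, hF.diag F h b⟩]

/-- The product of two bo-bounded balleans is bo-bounded. -/
theorem result {X Y : Type*} (𝓔 : Set (Set (X × X))) (𝓕 : Set (Set (Y × Y))) (hE : IsBallean 𝓔)
    (hF : IsBallean 𝓕) (bE : OscBounded 𝓔) (bF : OscBounded 𝓕) : OscBounded (prodE 𝓔 𝓕) := by
  intro f hf
  have hf' := flip hf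
  obtain ⟨S, T, C, ⟨E, hE, a, ha⟩, ⟨F, hF, b, hb⟩, h⟩ := H15.Bal.core (id' hE) (id' hF)
    (fun x y => f (x, y)) (fun h k => bE h (lip hF bF hf h k)) (fun h k => bF h (lip hE bE hf' h k))
    (fun S hS => by
      obtain ⟨T, C, h1, h2⟩ := strip hF hE bF bE hf' S hS
      exact ⟨T, C, h1, fun i hi j hj => h2 j hj i hi⟩) (strip hE hF bE bF hf)
  exact ⟨S ×ˢ T, C, ⟨_, ⟨E, hE, F, hF, rfl⟩, (a, b), fun y hy => ⟨ha _ hy.1, hb _ hy.2⟩⟩,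
    fun p hp => h p.1 p.2 hp⟩

end Pool.Agent.Results.MP_34945e_gt.Prod
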